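import Mathlib

/-!
# MP_69b7b0_lc, Q1: the WPL tree algorithm is not `O(log n)`-competitive

Start with the zigzag path `1, n, 2, n-1, ...` and access its keys from top to bottom, again and
again.  At every access the accessed key has the same counter as its parent, and in a zigzag path
a rotation over the parent moves only these two keys, so no rotation is ever made and a round
costs `n (n + 1) / 2`.  The offline algorithm first rotates the path into a balanced tree and then
pays at most `log₂ (n + 1)` for an access.
-/

namespace Pool.Agent.Results.MP_69b7b0_lc.WPLNotLogCompetitive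

/-- Binary trees with keys in `ℕ`. -/
inductive Tree : Type
  | leaf : Tree
  | node : Tree → ℕ → Tree → Tree

namespace Tree

/-- The keys in symmetric order. -/
def toList : Tree → List ℕ
  | leaf => []
  | node l k r => toList l ++ k :: toList r

/-- `t` stores the keys `1, ..., n` in symmetric order. -/
def IsBST (n : ℕ) (t : Tree) : Prop := t.toList = List.range' 1 n

/-- The depth of the key `x` (the root has depth `0`), by the usual search. -/
def depth (x : ℕ) : Tree → ℕ
  | leaf => 0
  | node l k r => if x < k then depth x l + 1 else if k < x then depth x r + 1 else 0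

/-- The key at the root. -/
def rootKey : Tree → Option ℕ
  | leaf => none
  | node _ k _ => some k

/-- Right rotation at the root: the left child moves up. -/
def rotR : Tree → Tree
  | node (node a y b) k r => node a y (node b k r)
  | t => t

/-- Left rotation at the root: the right child moves up. -/
def rotL : Tree → Tree
  | node l k (node a y b) => node (node l k a) y b
  | t => t

/-- Rotation of the key `x` over its parent; nothing changes when `x` is the root. -/
def rotUp (x : ℕ) : Tree → Tree
  | leaf => leaf
  | node l k r =>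
    if x < k then
      (if l.rootKey = some x then rotR (node l k r) else node (rotUp x l) k r)
    else if k < x then
      (if r.rootKey = some x then rotL (node l k r) else node l k (rotUp x r))
    else node l k r

end Tree

open Tree

/-- Weighted path length of the tree `t` on keys `1, ..., n` with the counters `f`. -/
def WPL (n : ℕ) (f : ℕ → ℕ) (t : Tree) : ℕ := ∑ i ∈ Finset.Icc 1 n, f i * (1 + depth i t)

/-- Rotate `x` over its current parent as long as this strictly decreases the weighted path
length; returns the final tree and the number of rotations. -/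
def adjust (n : ℕ) (f : ℕ → ℕ) (x : ℕ) (t : Tree) : Tree × ℕ :=
  if WPL n f (rotUp x t) < WPL n f t then
    ((adjust n f x (rotUp x t)).1, (adjust n f x (rotUp x t)).2 + 1)
  else (t, 0)
termination_by WPL n f t

/-- State of the algorithm: the tree, the counters, the cost paid so far. -/
structure State where
  /-- current tree -/
  tree : Tree
  /-- counters -/
  cnt : ℕ → ℕ
  /-- total cost -/
  cost : ℕ

/-- Serve one access to `x`: pay `1 + depth`, update the counter, rotate (each rotation
costs `1`). -/
def step (n : ℕ) (s : State) (x : ℕ) : State :=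
  ⟨(adjust n (Function.update s.cnt x (s.cnt x + 1)) x s.tree).1,
   Function.update s.cnt x (s.cnt x + 1),
   s.cost + (1 + depth x s.tree) +
    (adjust n (Function.update s.cnt x (s.cnt x + 1)) x s.tree).2⟩

/-- Total cost of the WPL tree started at `T₀` (all counters `0`) on the sequence `σ`. -/
def wplCost (n : ℕ) (T₀ : Tree) (σ : List ℕ) : ℕ :=
  (σ.foldl (step n) ⟨T₀, fun _ => 0, 0⟩).cost

/-- A single rotation somewhere in the tree. -/
inductive Rot : Tree → Tree → Prop
  | right (a : Tree) (y : ℕ) (b : Tree) (k : ℕ) (r : Tree) :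
      Rot (node (node a y b) k r) (node a y (node b k r))
  | left (l : Tree) (k : ℕ) (a : Tree) (y : ℕ) (b : Tree) :
      Rot (node l k (node a y b)) (node (node l k a) y b)
  | inl {l l' : Tree} (k : ℕ) (r : Tree) : Rot l l' → Rot (node l k r) (node l' k r)
  | inr {r r' : Tree} (l : Tree) (k : ℕ) : Rot r r' → Rot (node l k r) (node l k r')

/-- `Serves t σ c`: some offline algorithm that starts with the tree `t` serves the accesses `σ`
with total cost `c`; it may make arbitrary rotations, each of cost `1`, before every access and
at the end, and an access costs the number of nodes on the path to the key. -/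
inductive Serves : Tree → List ℕ → ℕ → Prop
  | done (t : Tree) : Serves t [] 0
  | rotate {t t' : Tree} {σ : List ℕ} {c : ℕ} : Rot t t' → Serves t' σ c → Serves t σ (c + 1)
  | access {t : Tree} (x : ℕ) {σ : List ℕ} {c : ℕ} :
      Serves t σ c → Serves t (x :: σ) (c + (1 + depth x t))

/-- `OPT(T₀, σ)`: the minimum total cost of an offline algorithm. -/
noncomputable def opt (T₀ : Tree) (σ : List ℕ) : ℕ := sInf {c | Serves T₀ σ c}

/-! ### The zigzag path -/

/-- The zigzag path on the keys `lo, ..., lo + m - 1`; the root is the smallest key for `true` and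
the largest key for `false`. -/
def zz : Bool → ℕ → ℕ → Tree
  | _, _, 0 => leaf
  | true, lo, m + 1 => node leaf lo (zz false (lo + 1) m)
  | false, lo, m + 1 => node (zz true lo m) (lo + m) leaf

/-- Its keys from top to bottom. -/
def path : Bool → ℕ → ℕ → List ℕ
  | _, _, 0 => []
  | true, lo, m + 1 => lo :: path false (lo + 1) m
  | false, lo, m + 1 => (lo + m) :: path true lo m

theorem zz_toList : ∀ (m : ℕ) (b : Bool) (lo : ℕ), (zz b lo m).toList = List.range' lo m := by
  intro m
  induction m with
  | zero => intro b lo; cases b <;> rfl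
  | succ m ih =>
    intro b lo
    cases b with
    | true => simp [zz, toList, ih, List.range'_succ]
    | false => simp [zz, toList, ih, List.range'_1_concat]

theorem mem_path : ∀ (m : ℕ) (b : Bool) (lo x : ℕ), x ∈ path b lo m ↔ lo ≤ x ∧ x < lo + m := by
  intro m
  induction m with
  | zero => intro b lo x; cases b <;> simp [path] <;> omega
  | succ m ih =>
    intro b lo x
    cases b with
    | true => simp only [path, List.mem_cons, ih]; omega
    | false => simp only [path, List.mem_cons, ih]; omega

theorem path_nodup : ∀ (m : ℕ) (b : Bool) (lo : ℕ), (path b lo m).Nodup := by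
  intro m
  induction m with
  | zero => intro b lo; cases b <;> simp [path]
  | succ m ih =>
    intro b lo
    cases b with
    | true =>
      simp only [path, List.nodup_cons]
      exact ⟨fun h => by rw [mem_path] at h; omega, ih _ _⟩
    | false =>
      simp only [path, List.nodup_cons]
      exact ⟨fun h => by rw [mem_path] at h; omega, ih _ _⟩

theorem path_length : ∀ (m : ℕ) (b : Bool) (lo : ℕ), (path b lo m).length = m := by
  intro m
  induction m with
  | zero => intro b lo; cases b <;> rfl
  | succ m ih => intro b lo; cases b <;> simp [path, ih]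

theorem path_cost : ∀ (m : ℕ) (b : Bool) (lo : ℕ),
    2 * ((path b lo m).map fun x => 1 + depth x (zz b lo m)).sum = m * (m + 1) := by
  intro m
  induction m with
  | zero => intro b lo; cases b <;> simp [path]
  | succ m ih =>
    intro b lo
    cases b with
    | true =>
      have h : ((path false (lo + 1) m).map fun x => 1 + depth x (zz true lo (m + 1))).sum
          = ((path false (lo + 1) m).map fun x => 1 + depth x (zz false (lo + 1) m)).sum + m := by
        have h1 : (path false (lo + 1) m).map (fun x => 1 + depth x (zz true lo (m + 1)))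
            = (path false (lo + 1) m).map
              (fun x => (1 + depth x (zz false (lo + 1) m)) + 1) := by
          apply List.map_congr_left
          intro x hx
          rw [mem_path] at hx
          simp only [zz, depth]
          rw [if_neg (by omega), if_pos (by omega)]
          omega
        rw [h1, List.sum_map_add]
        simp [path_length]
      have h2 : depth lo (zz true lo (m + 1)) = 0 := by simp [zz, depth]
      have h3 := ih false (lo + 1)
      simp only [path, List.map_cons, List.sum_cons, h, h2]
      nlinarith [h3]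
    | false =>
      have h : ((path true lo m).map fun x => 1 + depth x (zz false lo (m + 1))).sum
          = ((path true lo m).map fun x => 1 + depth x (zz true lo m)).sum + m := by
        have h1 : (path true lo m).map (fun x => 1 + depth x (zz false lo (m + 1)))
            = (path true lo m).map
              (fun x => (1 + depth x (zz true lo m)) + 1) := by
          apply List.map_congr_left
          intro x hx
          rw [mem_path] at hx
          simp only [zz, depth]
          rw [if_pos (by omega)]
          omega
        rw [h1, List.sum_map_add]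
        simp [path_length]
      have h2 : depth (lo + m) (zz false lo (m + 1)) = 0 := by simp [zz, depth]
      have h3 := ih true lo
      simp only [path, List.map_cons, List.sum_cons, h, h2]
      nlinarith [h3]

theorem rootKey_zz (m : ℕ) (b : Bool) (lo : ℕ) : (zz b lo m).rootKey = (path b lo m).head? := by
  cases m with
  | zero => cases b <;> rfl
  | succ m => cases b <;> rfl

/-- Effect of a rotation in the zigzag path on the depths: only `x` moves up, by one, and its
parent `p` moves down. -/
theorem rot_depth : ∀ (m : ℕ) (b : Bool) (lo : ℕ) (L₁ : List ℕ) (p x : ℕ) (L₃ : List ℕ),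
    path b lo m = L₁ ++ p :: x :: L₃ →
    (∀ k, lo ≤ k → k < lo + m → k ≠ x →
      depth k (zz b lo m) ≤ depth k (rotUp x (zz b lo m))) ∧
    depth x (zz b lo m) ≤ depth x (rotUp x (zz b lo m)) + 1 ∧
    depth p (zz b lo m) + 1 ≤ depth p (rotUp x (zz b lo m)) := by
  intro m
  induction m with
  | zero =>
    intro b lo L₁ p x L₃ h
    have := congrArg List.length h
    rw [path_length] at this
    simp at this
  | succ m ih =>
    intro b lo L₁ p x L₃ h
    have hx : x ∈ path b lo (m + 1) := by rw [h]; simp
    have hp : p ∈ path b lo (m + 1) := by rw [h]; simp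
    have hnd := path_nodup (m + 1) b lo
    cases L₁ with
    | nil =>
      cases b with
      | true =>
        simp only [path, List.nil_append, List.cons.injEq] at h
        obtain ⟨rfl, h⟩ := h
        cases m with
        | zero => simp [path] at h
        | succ m =>
          simp only [path, List.cons.injEq] at h
          obtain ⟨rfl, -⟩ := h
          have hrot : rotUp (lo + 1 + m) (zz true lo (m + 1 + 1)) =
              node (node leaf lo (zz true (lo + 1) m)) (lo + 1 + m) leaf := by
            simp only [zz, rotUp, rootKey, rotL]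
            rw [if_neg (by omega), if_pos (by omega)]
            simp
          rw [hrot]
          simp only [zz, depth]
          refine ⟨?_, ?_, ?_⟩
          · intro k hk1 hk2 hk3
            split_ifs <;> omega
          · split_ifs <;> omega
          · split_ifs <;> omega
      | false =>
        simp only [path, List.nil_append, List.cons.injEq] at h
        obtain ⟨rfl, h⟩ := h
        cases m with
        | zero => simp [path] at h
        | succ m =>
          simp only [path, List.cons.injEq] at h
          obtain ⟨rfl, -⟩ := h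
          have hrot : rotUp lo (zz false lo (m + 1 + 1)) =
              node leaf lo (node (zz false (lo + 1) m) (lo + (m + 1)) leaf) := by
            simp only [zz, rotUp, rootKey, rotR]
            rw [if_pos (by omega)]
            simp
          rw [hrot]
          simp only [zz, depth]
          refine ⟨?_, ?_, ?_⟩
          · intro k hk1 hk2 hk3
            split_ifs <;> omega
          · split_ifs <;> omega
          · split_ifs <;> omega
    | cons y L₁ =>
      cases b with
      | true =>
        simp only [path, List.cons_append, List.cons.injEq] at h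
        obtain ⟨rfl, h⟩ := h
        have hx' : x ∈ path false (lo + 1) m := by rw [h]; simp
        have hp' : p ∈ path false (lo + 1) m := by rw [h]; simp
        have hnd' := path_nodup m false (lo + 1)
        have hroot : (zz false (lo + 1) m).rootKey ≠ some x := by
          rw [rootKey_zz, h]
          rw [h] at hnd'
          cases L₁ with
          | nil => simp at hnd' ⊢; tauto
          | cons z L₁ => simp at hnd' ⊢; intro hz; exact hnd'.1.2.2.1 hz
        rw [mem_path] at hx' hp'
        obtain ⟨h1, h2, h3⟩ := ih false (lo + 1) L₁ p x L₃ h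
        have hrot : rotUp x (zz true lo (m + 1)) =
            node leaf lo (rotUp x (zz false (lo + 1) m)) := by
          simp only [zz, rotUp]
          rw [if_neg (by omega), if_pos (by omega), if_neg hroot]
        rw [hrot]
        simp only [zz, depth]
        refine ⟨?_, ?_, ?_⟩
        · intro k hk1 hk2 hk3
          have h1k := h1 k
          split_ifs <;> omega
        · rw [if_neg (by omega), if_pos (by omega), if_neg (by omega), if_pos (by omega)]
          omega
        · rw [if_neg (by omega), if_pos (by omega), if_neg (by omega), if_pos (by omega)]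
          omega
      | false =>
        simp only [path, List.cons_append, List.cons.injEq] at h
        obtain ⟨rfl, h⟩ := h
        have hx' : x ∈ path true lo m := by rw [h]; simp
        have hp' : p ∈ path true lo m := by rw [h]; simp
        have hnd' := path_nodup m true lo
        have hroot : (zz true lo m).rootKey ≠ some x := by
          rw [rootKey_zz, h]
          rw [h] at hnd'
          cases L₁ with
          | nil => simp at hnd' ⊢; tauto
          | cons z L₁ => simp at hnd' ⊢; intro hz; exact hnd'.1.2.2.1 hz
        rw [mem_path] at hx' hp'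
        obtain ⟨h1, h2, h3⟩ := ih true lo L₁ p x L₃ h
        have hrot : rotUp x (zz false lo (m + 1)) =
            node (rotUp x (zz true lo m)) (lo + m) leaf := by
          simp only [zz, rotUp]
          rw [if_pos (by omega), if_neg hroot]
        rw [hrot]
        simp only [zz, depth]
        refine ⟨?_, ?_, ?_⟩
        · intro k hk1 hk2 hk3
          have h1k := h1 k
          split_ifs <;> omega
        · rw [if_pos (by omega), if_pos (by omega)]
          omega
        · rw [if_pos (by omega), if_pos (by omega)]
          omega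

theorem adjust_of_not {n : ℕ} {f : ℕ → ℕ} {x : ℕ} {t : Tree}
    (h : ¬ WPL n f (rotUp x t) < WPL n f t) : adjust n f x t = (t, 0) := by
  rw [adjust, if_neg h]

/-- No rotation when the accessed key is not heavier than its parent. -/
theorem adjust_zz {n : ℕ} {f : ℕ → ℕ} {L₁ L₃ : List ℕ} {p x : ℕ}
    (h : path true 1 n = L₁ ++ p :: x :: L₃) (hf : f x ≤ f p) :
    adjust n f x (zz true 1 n) = (zz true 1 n, 0) := by
  apply adjust_of_not
  obtain ⟨h1, h2, h3⟩ := rot_depth n true 1 L₁ p x L₃ h
  have hx : x ∈ path true 1 n := by rw [h]; simp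
  have hp : p ∈ path true 1 n := by rw [h]; simp
  have hnd := path_nodup n true 1
  have hpx : p ≠ x := by
    rw [h] at hnd
    rintro rfl
    simp [List.nodup_append] at hnd
  rw [mem_path] at hx hp
  have hx' : x ∈ Finset.Icc 1 n := by rw [Finset.mem_Icc]; omega
  have hp' : p ∈ Finset.Icc 1 n := by rw [Finset.mem_Icc]; omega
  have key : ∑ i ∈ Finset.Icc 1 n, (f i * (1 + depth i (zz true 1 n)) + if i = p then f p else 0)
      ≤ ∑ i ∈ Finset.Icc 1 n,
        (f i * (1 + depth i (rotUp x (zz true 1 n))) + if i = x then f x else 0) := by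
    apply Finset.sum_le_sum
    intro i hi
    rw [Finset.mem_Icc] at hi
    by_cases hix : i = x
    · subst hix
      rw [if_neg (Ne.symm hpx), if_pos rfl]
      have := Nat.mul_le_mul_left (f i) h2
      nlinarith [this]
    · rw [if_neg hix]
      by_cases hip : i = p
      · subst hip
        rw [if_pos rfl]
        have := Nat.mul_le_mul_left (f i) h3
        nlinarith [this]
      · rw [if_neg hip]
        have := Nat.mul_le_mul_left (f i) (h1 i (by omega) (by omega) hix)
        nlinarith [this]
  rw [Finset.sum_add_distrib, Finset.sum_add_distrib, Finset.sum_ite_eq' , Finset.sum_ite_eq',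
    if_pos hx', if_pos hp'] at key
  unfold WPL
  omega

/-- The run on a suffix of one round. -/
theorem run_suffix (n r : ℕ) : ∀ (L₂ L₁ : List ℕ) (s : State), path true 1 n = L₁ ++ L₂ →
    s.tree = zz true 1 n → (∀ k ∈ L₁, s.cnt k = r + 1) → (∀ k ∈ L₂, s.cnt k = r) →
    (L₂.foldl (step n) s).tree = zz true 1 n ∧
    (∀ k ∈ L₁ ++ L₂, (L₂.foldl (step n) s).cnt k = r + 1) ∧
    (L₂.foldl (step n) s).cost =
      s.cost + (L₂.map fun x => 1 + depth x (zz true 1 n)).sum := by
  intro L₂
  induction L₂ with
  | nil =>
    intro L₁ s _ ht h1 _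
    refine ⟨ht, ?_, by simp⟩
    intro k hk
    exact h1 k (by simpa using hk)
  | cons x L₂ ih =>
    intro L₁ s hL ht h1 h2
    have hnd := path_nodup n true 1
    have hadj : adjust n (Function.update s.cnt x (s.cnt x + 1)) x s.tree =
        (zz true 1 n, 0) := by
      rw [ht]
      rcases List.eq_nil_or_concat L₁ with hnil | ⟨L', p, hL'⟩
      · -- `x` is the root
        apply adjust_of_not
        rw [hnil] at hL
        cases n with
        | zero => simp [path] at hL
        | succ n =>
          simp only [path, List.nil_append, List.cons.injEq] at hL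
          obtain ⟨rfl, -⟩ := hL
          have : rotUp 1 (zz true 1 (n + 1)) = zz true 1 (n + 1) := by
            simp [zz, rotUp]
          rw [this]
          exact lt_irrefl _
      · have hL2 : path true 1 n = L' ++ p :: x :: L₂ := by
          rw [hL, hL']; simp
        apply adjust_zz hL2
        have hp : p ∈ L₁ := by rw [hL']; simp
        have hpx : p ≠ x := by
          rw [hL2] at hnd
          rintro rfl
          simp [List.nodup_append] at hnd
        rw [Function.update_self, Function.update_of_ne hpx, h1 p hp, h2 x (by simp)]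
    have hstep : step n s x = ⟨zz true 1 n, Function.update s.cnt x (s.cnt x + 1),
        s.cost + (1 + depth x (zz true 1 n))⟩ := by
      unfold step
      rw [hadj, ht]
      simp
    rw [List.foldl_cons, hstep]
    have hL3 : path true 1 n = (L₁ ++ [x]) ++ L₂ := by rw [hL]; simp
    rw [hL] at hnd
    have hnd2 : ∀ k ∈ L₁, k ≠ x := by
      intro k hk hkx
      subst hkx
      simp only [List.nodup_append, List.nodup_cons] at hnd
      exact hnd.2.2 k hk k (by simp) rfl
    have hnd3 : ∀ k ∈ L₂, k ≠ x := by
      intro k hk hkx
      subst hkx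
      simp only [List.nodup_append, List.nodup_cons] at hnd
      exact hnd.2.1.1 hk
    obtain ⟨g1, g2, g3⟩ := ih (L₁ ++ [x]) ⟨zz true 1 n, Function.update s.cnt x (s.cnt x + 1),
        s.cost + (1 + depth x (zz true 1 n))⟩ hL3 rfl (by
          intro k hk
          rcases List.mem_append.1 hk with hk | hk
          · show Function.update s.cnt x (s.cnt x + 1) k = r + 1
            rw [Function.update_of_ne (hnd2 k hk), h1 k hk]
          · have : k = x := by simpa using hk
            subst this
            show Function.update s.cnt k (s.cnt k + 1) k = r + 1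
            rw [Function.update_self, h2 k (by simp)]) (by
          intro k hk
          show Function.update s.cnt x (s.cnt x + 1) k = r
          rw [Function.update_of_ne (hnd3 k hk), h2 k (by simp [hk])])
    refine ⟨g1, ?_, ?_⟩
    · intro k hk
      exact g2 k (by simpa using hk)
    · rw [g3]
      simp only [List.map_cons, List.sum_cons]
      omega

/-- `r` rounds. -/
theorem run_rounds (n : ℕ) : ∀ r : ℕ,
    (((List.replicate r (path true 1 n)).flatten).foldl (step n)
      ⟨zz true 1 n, fun _ => 0, 0⟩).tree = zz true 1 n ∧
    (∀ k ∈ path true 1 n, (((List.replicate r (path true 1 n)).flatten).foldl (step n)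
      ⟨zz true 1 n, fun _ => 0, 0⟩).cnt k = r) ∧
    (((List.replicate r (path true 1 n)).flatten).foldl (step n)
      ⟨zz true 1 n, fun _ => 0, 0⟩).cost =
        r * ((path true 1 n).map fun x => 1 + depth x (zz true 1 n)).sum := by
  intro r
  induction r with
  | zero => simp
  | succ r ih =>
    obtain ⟨h1, h2, h3⟩ := ih
    rw [List.replicate_succ', List.flatten_append, List.foldl_append]
    have hfl : [path true 1 n].flatten = path true 1 n := by simp
    rw [hfl]
    obtain ⟨g1, g2, g3⟩ := run_suffix n r (path true 1 n) [] _ (by simp) h1 (by simp) h2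
    refine ⟨g1, ?_, ?_⟩
    · intro k hk
      exact g2 k (by simpa using hk)
    · rw [g3, h3]
      ring

/-! ### The balanced tree -/

/-- The perfectly balanced tree with `2 ^ h - 1` keys starting at `lo`. -/
def bal : ℕ → ℕ → Tree
  | _, 0 => leaf
  | lo, h + 1 => node (bal lo h) (lo + (2 ^ h - 1)) (bal (lo + 2 ^ h) h)

theorem bal_toList : ∀ (h lo : ℕ), (bal lo h).toList = List.range' lo (2 ^ h - 1) := by
  intro h
  induction h with
  | zero => intro lo; simp [bal, toList]
  | succ h ih =>
    intro lo
    have hpos : 0 < 2 ^ h := by positivity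
    have e1 : (lo + (2 ^ h - 1)) :: List.range' (lo + 2 ^ h) (2 ^ h - 1) =
        List.range' (lo + (2 ^ h - 1)) (2 ^ h - 1 + 1) := by
      rw [List.range'_succ]
      congr 2
      omega
    simp only [bal, toList, ih]
    rw [e1, List.range'_append_1]
    congr 1
    rw [pow_succ]
    omega

theorem bal_depth : ∀ (h lo x : ℕ), lo ≤ x → x < lo + (2 ^ h - 1) →
    1 + depth x (bal lo h) ≤ h := by
  intro h
  induction h with
  | zero => intro lo x h1 h2; simp at h2; omega
  | succ h ih =>
    intro lo x h1 h2
    have hpos : 0 < 2 ^ h := by positivity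
    simp only [bal, depth]
    rw [pow_succ] at h2
    split_ifs with c1 c2
    · have := ih lo x h1 (by omega)
      omega
    · have := ih (lo + 2 ^ h) x (by omega) (by omega)
      omega
    · omega

/-! ### Rotations connect all trees with the same keys -/

theorem Rot.symm {t t' : Tree} (h : Rot t t') : Rot t' t := by
  induction h with
  | right a y b k r => exact Rot.left _ _ _ _ _
  | left l k a y b => exact Rot.right _ _ _ _ _
  | inl k r _ ih => exact Rot.inl _ _ ih
  | inr l k _ ih => exact Rot.inr _ _ ih

/-- Reachability by rotations. -/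
abbrev RotS : Tree → Tree → Prop := Relation.ReflTransGen Rot

theorem RotS.inl {l l' : Tree} (k : ℕ) (r : Tree) (h : RotS l l') :
    RotS (node l k r) (node l' k r) := by
  induction h with
  | refl => exact Relation.ReflTransGen.refl
  | tail _ h ih => exact ih.tail (Rot.inl k r h)

theorem RotS.inr {r r' : Tree} (l : Tree) (k : ℕ) (h : RotS r r') :
    RotS (node l k r) (node l k r') := by
  induction h with
  | refl => exact Relation.ReflTransGen.refl
  | tail _ h ih => exact ih.tail (Rot.inr l k h)

/-- The right spine with the given keys. -/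
def vine : List ℕ → Tree
  | [] => leaf
  | k :: L => node leaf k (vine L)

theorem vine_merge (k : ℕ) (R : List ℕ) : ∀ L : List ℕ,
    RotS (node (vine L) k (vine R)) (vine (L ++ k :: R)) := by
  intro L
  induction L with
  | nil => exact Relation.ReflTransGen.refl
  | cons y L ih =>
    exact Relation.ReflTransGen.head (Rot.right leaf y (vine L) k (vine R)) (RotS.inr leaf y ih)

theorem rot_vine : ∀ t : Tree, RotS t (vine t.toList) := by
  intro t
  induction t with
  | leaf => exact Relation.ReflTransGen.refl
  | node l k r ihl ihr =>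
    exact ((RotS.inl k r ihl).trans (RotS.inr _ k ihr)).trans (vine_merge k _ _)

theorem rotS_symm {t t' : Tree} (h : RotS t t') : RotS t' t := by
  induction h with
  | refl => exact Relation.ReflTransGen.refl
  | tail _ h ih => exact Relation.ReflTransGen.head h.symm ih

theorem rotS_of_toList {t t' : Tree} (h : t.toList = t'.toList) : RotS t t' :=
  (rot_vine t).trans (by rw [h]; exact rotS_symm (rot_vine t'))

theorem serves_of_rotS {t t' : Tree} (h : RotS t t') :
    ∃ K : ℕ, ∀ (σ : List ℕ) (c : ℕ), Serves t' σ c → Serves t σ (c + K) := by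
  induction h using Relation.ReflTransGen.head_induction_on with
  | refl => exact ⟨0, fun σ c h => h⟩
  | head h _ ih =>
    obtain ⟨K, hK⟩ := ih
    exact ⟨K + 1, fun σ c h' => Serves.rotate h (hK σ c h')⟩

theorem serves_static (t : Tree) : ∀ σ : List ℕ,
    Serves t σ (σ.map fun x => 1 + depth x t).sum := by
  intro σ
  induction σ with
  | nil => exact Serves.done t
  | cons x σ ih =>
    have := Serves.access x ih
    simpa [add_comm] using this

theorem opt_le (h : ℕ) : ∃ K : ℕ, ∀ σ : List ℕ, (∀ x ∈ σ, 1 ≤ x ∧ x ≤ 2 ^ h - 1) →
    opt (zz true 1 (2 ^ h - 1)) σ ≤ σ.length * h + K := by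
  obtain ⟨K, hK⟩ := serves_of_rotS
    (rotS_of_toList ((zz_toList (2 ^ h - 1) true 1).trans (bal_toList h 1).symm))
  refine ⟨K, fun σ hσ => ?_⟩
  have h1 : opt (zz true 1 (2 ^ h - 1)) σ ≤ (σ.map fun x => 1 + depth x (bal 1 h)).sum + K :=
    Nat.sInf_le (hK σ _ (serves_static (bal 1 h) σ))
  have h2 : ∀ y ∈ (σ.map fun x => 1 + depth x (bal 1 h)), y ≤ h := by
    intro y hy
    rw [List.mem_map] at hy
    obtain ⟨x, hx, rfl⟩ := hy
    have := hσ x hx
    exact bal_depth h 1 x this.1 (by omega)
  have h3 := List.sum_le_card_nsmul _ h h2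
  have h4 : (σ.map fun x => 1 + depth x (bal 1 h)).sum ≤ σ.length * h := by simpa using h3
  omega

/-- The quantitative form: for `n = 2 ^ h - 1` and every `c < (n + 1) / (2 h)`. -/
theorem quant (h : ℕ) (hh : 1 ≤ h) (c : ℝ) (hc : c < 2 ^ h / (2 * h)) (a : ℝ) :
    ∃ σ : List ℕ, (∀ x ∈ σ, 1 ≤ x ∧ x ≤ 2 ^ h - 1) ∧
      c * (opt (zz true 1 (2 ^ h - 1)) σ : ℝ) + a <
        (wplCost (2 ^ h - 1) (zz true 1 (2 ^ h - 1)) σ : ℝ) := by
  obtain ⟨K, hK⟩ := opt_le h
  set n : ℕ := 2 ^ h - 1 with hn
  have hn1 : n + 1 = 2 ^ h := by
    have : 0 < 2 ^ h := by positivity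
    omega
  have hnpos : 1 ≤ n := by
    have : 2 ^ 1 ≤ 2 ^ h := Nat.pow_le_pow_right (by norm_num) hh
    omega
  have hnR : (n : ℝ) + 1 = 2 ^ h := by exact_mod_cast hn1
  set d : ℝ := max c 0 with hd
  have hhR : (0 : ℝ) < h := by exact_mod_cast hh
  have hdlt : d < 2 ^ h / (2 * h) := max_lt hc (by positivity)
  have hgap : 0 < (n : ℝ) * (((n : ℝ) + 1) / 2 - d * h) := by
    have h1 : (1 : ℝ) ≤ n := by exact_mod_cast hnpos
    have h2 : d * (2 * h) < (n : ℝ) + 1 := by
      rw [hnR]
      exact (lt_div_iff₀ (by positivity)).1 hdlt
    apply mul_pos (by linarith)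
    linarith
  obtain ⟨r, hr⟩ := exists_nat_gt ((d * K + a) / ((n : ℝ) * (((n : ℝ) + 1) / 2 - d * h)))
  rw [div_lt_iff₀ hgap] at hr
  have hval : ∀ x ∈ (List.replicate r (path true 1 n)).flatten, 1 ≤ x ∧ x ≤ n := by
    intro x hx
    rw [List.mem_flatten] at hx
    obtain ⟨l, hl, hx⟩ := hx
    rw [List.eq_of_mem_replicate hl, mem_path] at hx
    omega
  refine ⟨(List.replicate r (path true 1 n)).flatten, hval, ?_⟩
  have hopt := hK _ hval
  have hlen : ((List.replicate r (path true 1 n)).flatten).length = r * n := by
    simp [path_length]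
  rw [hlen] at hopt
  have hcost : wplCost n (zz true 1 n) (List.replicate r (path true 1 n)).flatten =
      r * ((path true 1 n).map fun x => 1 + depth x (zz true 1 n)).sum :=
    (run_rounds n r).2.2
  have hpc := path_cost n true 1
  have h2 : 2 * wplCost n (zz true 1 n) (List.replicate r (path true 1 n)).flatten =
      r * (n * (n + 1)) := by
    rw [hcost, ← hpc]; ring
  have h2R : 2 * (wplCost n (zz true 1 n) (List.replicate r (path true 1 n)).flatten : ℝ) =
      r * (n * ((n : ℝ) + 1)) := by exact_mod_cast h2
  have hoptR : (opt (zz true 1 n) (List.replicate r (path true 1 n)).flatten : ℝ) ≤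
      (r : ℝ) * n * h + K := by exact_mod_cast hopt
  have h0 : (0 : ℝ) ≤ (opt (zz true 1 n) (List.replicate r (path true 1 n)).flatten : ℝ) :=
    Nat.cast_nonneg _
  have h8 : c * (opt (zz true 1 n) (List.replicate r (path true 1 n)).flatten : ℝ) ≤
      d * (opt (zz true 1 n) (List.replicate r (path true 1 n)).flatten : ℝ) :=
    mul_le_mul_of_nonneg_right (le_max_left _ _) h0
  have h9 : d * (opt (zz true 1 n) (List.replicate r (path true 1 n)).flatten : ℝ) ≤
      d * ((r : ℝ) * n * h + K) :=
    mul_le_mul_of_nonneg_left hoptR (le_max_right _ _)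
  nlinarith [h8, h9, hr, h2R]

theorem log_bound (h : ℕ) (hh : 1 ≤ h) :
    0 ≤ Real.log ((2 ^ h - 1 : ℕ) : ℝ) ∧ Real.log ((2 ^ h - 1 : ℕ) : ℝ) ≤ (h : ℝ) := by
  have hnat : 1 ≤ 2 ^ h - 1 := by
    have : 2 ^ 1 ≤ 2 ^ h := Nat.pow_le_pow_right (by norm_num) hh
    omega
  have hnatR : (1 : ℝ) ≤ ((2 ^ h - 1 : ℕ) : ℝ) := by exact_mod_cast hnat
  refine ⟨Real.log_nonneg hnatR, ?_⟩
  have h1 : Real.log ((2 ^ h - 1 : ℕ) : ℝ) ≤ Real.log ((2 : ℝ) ^ h) := by
    apply Real.log_le_log (by linarith)
    have : 2 ^ h - 1 ≤ 2 ^ h := Nat.sub_le _ _
    exact_mod_cast this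
  rw [Real.log_pow] at h1
  have h2 : Real.log 2 ≤ 1 := by
    have := Real.log_two_lt_d9
    linarith
  have h3 : (0 : ℝ) ≤ (h : ℝ) := Nat.cast_nonneg _
  nlinarith

theorem exists_exp (D : ℕ) : ∃ h : ℕ, 1 ≤ h ∧ 2 * D * h * h < 2 ^ h := by
  obtain ⟨m, hm⟩ : ∃ m, m = 32 * (D + 1) := ⟨_, rfl⟩
  refine ⟨4 * m, by omega, ?_⟩
  have hmpow : m < 2 ^ m := Nat.lt_two_pow_self
  have e1 : 2 ^ (4 * m) = (2 ^ m * 2 ^ m) * (2 ^ m * 2 ^ m) := by
    rw [← pow_add, ← pow_add]; congr 1; ring
  rw [e1]
  have e2 : m * m < 2 ^ m * 2 ^ m := Nat.mul_lt_mul'' hmpow hmpow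
  have e3 : 2 * D * (4 * m) * (4 * m) ≤ (m * m) * (m * m) := by
    have h5 : 32 * D ≤ m * m := by nlinarith
    have h6 := Nat.mul_le_mul_right (m * m) h5
    linarith
  exact lt_of_le_of_lt e3 (Nat.mul_lt_mul'' e2 e2)

/-- **Main result.** The WPL tree algorithm is not `O(log n)`-competitive. For `n = 2 ^ h - 1` and
every `c < (n + 1) / (2 h)` there is an initial tree such that for every additive constant `a`
some access sequence costs the WPL tree more than `c · OPT + a`; in particular this holds for
every multiple of `log n` for suitable `n`. -/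
theorem result :
    (∀ h : ℕ, 1 ≤ h → ∀ c : ℝ, c < 2 ^ h / (2 * h) →
      ∃ T₀ : Tree, IsBST (2 ^ h - 1) T₀ ∧ ∀ a : ℝ, ∃ σ : List ℕ,
        (∀ x ∈ σ, 1 ≤ x ∧ x ≤ 2 ^ h - 1) ∧
        (wplCost (2 ^ h - 1) T₀ σ : ℝ) > c * (opt T₀ σ : ℝ) + a) ∧
    (∀ C : ℝ, ∃ (n : ℕ) (T₀ : Tree), IsBST n T₀ ∧ ∀ a : ℝ, ∃ σ : List ℕ,
        (∀ x ∈ σ, 1 ≤ x ∧ x ≤ n) ∧
        (wplCost n T₀ σ : ℝ) > C * Real.log n * (opt T₀ σ : ℝ) + a) := by
  refine ⟨fun h hh c hc => ⟨zz true 1 (2 ^ h - 1), zz_toList _ _ _, fun a => ?_⟩, fun C => ?_⟩
  · obtain ⟨σ, h1, h2⟩ := quant h hh c hc a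
    exact ⟨σ, h1, h2⟩
  · obtain ⟨D, hD⟩ := exists_nat_ge C
    obtain ⟨h, hh, hbig⟩ := exists_exp D
    refine ⟨2 ^ h - 1, zz true 1 (2 ^ h - 1), zz_toList _ _ _, fun a => ?_⟩
    obtain ⟨hlog0, hlog⟩ := log_bound h hh
    have hc : C * Real.log ((2 ^ h - 1 : ℕ) : ℝ) <
        2 ^ h / (2 * (h : ℝ)) := by
      have hpos : (0 : ℝ) < (h : ℝ) := Nat.cast_pos.2 hh
      rw [lt_div_iff₀ (by positivity)]
      have h1 : C * Real.log ((2 ^ h - 1 : ℕ) : ℝ) ≤ D * (h : ℝ) := by
        calc C * Real.log ((2 ^ h - 1 : ℕ) : ℝ)
            ≤ D * Real.log ((2 ^ h - 1 : ℕ) : ℝ) :=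
              mul_le_mul_of_nonneg_right hD hlog0
          _ ≤ D * (h : ℝ) := mul_le_mul_of_nonneg_left hlog (Nat.cast_nonneg _)
      have h2 : (2 : ℝ) * D * (h : ℝ) * (h : ℝ) < 2 ^ h := by
        exact_mod_cast hbig
      nlinarith
    obtain ⟨σ, h1, h2⟩ := quant h hh _ hc a
    exact ⟨σ, h1, h2⟩

end Pool.Agent.Results.MP_69b7b0_lc.WPLNotLogCompetitive
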